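import Mathlib

set_option autoImplicit false

open Polynomial ComplexConjugate

namespace Pool.Agent.Helper504.Circle

/-- no zeros in the closed unit disc -/
def ZF (P : ℂ[X]) : Prop := ∀ z : ℂ, ‖z‖ ≤ 1 → P.eval z ≠ 0

theorem bdd (P : ℂ[X]) : ∃ B : ℝ, 0 < B ∧ ∀ z : ℂ, ‖z‖ ≤ 1 → ‖P.eval z‖ ≤ B := by
  have hc : IsCompact (Metric.closedBall (0 : ℂ) 1) := isCompact_closedBall 0 1
  obtain ⟨B, hB⟩ := hc.exists_bound_of_continuousOn (f := fun z => P.eval z)
    P.continuous.continuousOn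
  refine ⟨max B 1, by positivity, fun z hz => ?_⟩
  exact (hB z (by simpa using hz)).trans (le_max_left _ _)

theorem root_near (c : ℂ) (hc : c ≠ 0) (ε : ℝ) (hε : 0 < ε) :
    ∃ (n : ℕ) (w : ℂ), w ^ n = c ∧ ‖w - 1‖ < ε := by
  have h1 : Filter.Tendsto (fun n : ℕ => Complex.exp (Complex.log c / (n : ℂ))) Filter.atTop
      (nhds 1) := by
    have h2 : Filter.Tendsto (fun n : ℕ => Complex.log c / (n : ℂ)) Filter.atTop (nhds 0) :=
      tendsto_const_div_atTop_nhds_zero_nat (Complex.log c)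
    have h3 := (Complex.continuous_exp.tendsto 0).comp h2
    rw [Complex.exp_zero] at h3
    exact h3
  obtain ⟨n, hn, hn1⟩ := ((Metric.tendsto_nhds.mp h1 ε hε).and
    (Filter.eventually_ge_atTop 1)).exists
  refine ⟨n, Complex.exp (Complex.log c / (n : ℂ)), ?_, ?_⟩
  · rw [← Complex.exp_nat_mul, mul_div_cancel₀, Complex.exp_log hc]
    exact_mod_cast (by omega : n ≠ 0)
  · rw [← dist_eq_norm]
    exact hn

theorem zf_one_add (G : ℂ[X]) (B : ℝ) (hB : 0 < B) (hG : ∀ z : ℂ, ‖z‖ ≤ 1 → ‖G.eval z‖ ≤ B)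
    (l : ℂ) (hl : ‖l‖ < 1 / B) (n : ℕ) : ZF ((1 + C l * G) ^ n) := by
  intro z hz h
  rw [eval_pow] at h
  have h1 : (1 + C l * G).eval z = 0 := eq_zero_of_pow_eq_zero h
  rw [eval_add, eval_one, eval_mul, eval_C] at h1
  have h2 : l * G.eval z = -1 := by linear_combination h1
  have h3 : ‖l * G.eval z‖ = 1 := by rw [h2]; simp
  rw [norm_mul] at h3
  have h4 : ‖l‖ * ‖G.eval z‖ ≤ ‖l‖ * B := mul_le_mul_of_nonneg_left (hG z hz) (norm_nonneg _)
  have h5 : ‖l‖ * B < 1 := by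
    rw [lt_div_iff₀ hB] at hl
    exact hl
  linarith

theorem sq_dvd (P : ℂ[X]) (o : ℂ) (h0 : P.eval o = 0) (h1 : (derivative P).eval o = 0) :
    (X - C o) ^ 2 ∣ P := by
  obtain ⟨Q, rfl⟩ := dvd_iff_isRoot.mpr h0
  rw [derivative_mul, eval_add, eval_mul, eval_mul] at h1
  simp at h1
  obtain ⟨R, rfl⟩ := dvd_iff_isRoot.mpr h1
  exact ⟨R, by ring⟩

theorem zf_mul {P Q : ℂ[X]} (hP : ZF P) (hQ : ZF Q) : ZF (P * Q) := by
  intro z hz
  rw [eval_mul]
  exact mul_ne_zero (hP z hz) (hQ z hz)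

theorem unit_rep (O : Finset ℂ) : (∀ o ∈ O, ‖o‖ ≤ 1) → ∀ A : ℂ[X], (∀ o ∈ O, A.eval o ≠ 0) →
    ∃ E : ℂ[X], ZF E ∧ (∏ o ∈ O, (X - C o)) ^ 2 ∣ A * E - 1 := by
  induction O using Finset.induction_on with
  | empty =>
    intro _ A _
    refine ⟨1, ?_, ?_⟩
    · intro z _; simp
    · simp
  | insert o O ho ih =>
    intro hO A hA
    obtain ⟨E, hE, hdvd⟩ := ih (fun x hx => hO x (Finset.mem_insert_of_mem hx)) A
      (fun x hx => hA x (Finset.mem_insert_of_mem hx))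
    have ho1 : ‖o‖ ≤ 1 := hO o (Finset.mem_insert_self o O)
    have hprod : ∏ x ∈ insert o O, (X - C x) = (X - C o) * ∏ x ∈ O, (X - C x) :=
      Finset.prod_insert ho
    have hcop : IsCoprime ((X - C o) ^ 2) ((∏ x ∈ O, (X - C x)) ^ 2) := by
      apply IsCoprime.pow
      apply IsCoprime.prod_right
      intro x hx
      apply isCoprime_X_sub_C_of_isUnit_sub
      apply Ne.isUnit
      intro h
      have : o = x := by linear_combination h
      exact ho (this ▸ hx)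
    obtain ⟨W, hW⟩ : ∃ W : ℂ[X], W = (∏ o ∈ O, (X - C o)) ^ 2 := ⟨_, rfl⟩
    rw [← hW] at hdvd hcop
    have hWo : W.eval o ≠ 0 := by
      rw [hW, eval_pow, eval_prod]
      refine pow_ne_zero 2 (Finset.prod_ne_zero_iff.mpr fun x hx => ?_)
      simp only [eval_sub, eval_X, eval_C]
      intro h
      have : o = x := by linear_combination h
      exact ho (this ▸ hx)
    -- first correction
    obtain ⟨B, hB, hBW⟩ := bdd W
    have hAE : (A * E).eval o ≠ 0 := by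
      rw [eval_mul]
      exact mul_ne_zero (hA o (Finset.mem_insert_self o O)) (hE o ho1)
    obtain ⟨n, w, hwn, hw1⟩ := root_near ((A * E).eval o)⁻¹ (inv_ne_zero hAE) (‖W.eval o‖ / B)
      (div_pos (norm_pos_iff.mpr hWo) hB)
    obtain ⟨l, hl⟩ : ∃ l : ℂ, l = (w - 1) / W.eval o := ⟨_, rfl⟩
    have hl1 : ‖l‖ < 1 / B := by
      rw [hl, norm_div, div_lt_div_iff₀ (norm_pos_iff.mpr hWo) hB]
      rw [lt_div_iff₀ hB] at hw1
      linarith
    obtain ⟨G, hG⟩ : ∃ G : ℂ[X], G = (1 + C l * W) ^ n := ⟨_, rfl⟩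
    have hGz : ZF G := by rw [hG]; exact zf_one_add W B hB hBW l hl1 n
    have hGo : G.eval o = ((A * E).eval o)⁻¹ := by
      rw [hG, eval_pow, eval_add, eval_one, eval_mul, eval_C, hl, div_mul_cancel₀ _ hWo, ← hwn]
      congr 1
      ring
    have hGd : W ∣ G - 1 := by
      have h1 := sub_dvd_pow_sub_pow (1 + C l * W) 1 n
      rw [one_pow, add_sub_cancel_left, ← hG] at h1
      exact (Dvd.intro_left _ rfl).trans h1
    obtain ⟨A1, hA1⟩ : ∃ A1 : ℂ[X], A1 = A * E * G := ⟨_, rfl⟩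
    have hA1o : A1.eval o = 1 := by
      rw [hA1, eval_mul, hGo, mul_inv_cancel₀ hAE]
    have hA1d : W ∣ A1 - 1 := by
      have : A1 - 1 = (A * E - 1) * G + (G - 1) := by rw [hA1]; ring
      rw [this]
      exact dvd_add (hdvd.mul_right G) hGd
    -- second correction
    obtain ⟨V, hV⟩ : ∃ V : ℂ[X], V = (X - C o) * W := ⟨_, rfl⟩
    obtain ⟨B', hB', hBV⟩ := bdd V
    obtain ⟨d, hd⟩ : ∃ d : ℂ, d = (derivative A1).eval o := ⟨_, rfl⟩
    obtain ⟨m, hm⟩ := exists_nat_gt (‖d‖ * B' / ‖W.eval o‖)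
    have hm0 : (0 : ℝ) < m := lt_of_le_of_lt (by positivity) hm
    have hmc : (m : ℂ) ≠ 0 := by
      intro h
      have : m = 0 := by exact_mod_cast h
      rw [this] at hm0
      simp at hm0
    obtain ⟨v, hv⟩ : ∃ v : ℂ, v = -d / (m * W.eval o) := ⟨_, rfl⟩
    have hv1 : ‖v‖ < 1 / B' := by
      rw [hv, norm_div, norm_neg, norm_mul, Complex.norm_natCast,
        div_lt_div_iff₀ (mul_pos hm0 (norm_pos_iff.mpr hWo)) hB']
      rw [div_lt_iff₀ (norm_pos_iff.mpr hWo)] at hm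
      linarith
    obtain ⟨H, hH⟩ : ∃ H : ℂ[X], H = (1 + C v * V) ^ m := ⟨_, rfl⟩
    have hHz : ZF H := by rw [hH]; exact zf_one_add V B' hB' hBV v hv1 m
    have hVo : V.eval o = 0 := by rw [hV]; simp
    have hVd : (derivative V).eval o = W.eval o := by
      rw [hV, derivative_mul]
      simp
    have hHo : H.eval o = 1 := by
      rw [hH, eval_pow, eval_add, eval_one, eval_mul, hVo, mul_zero, add_zero, one_pow]
    have hHdo : (derivative H).eval o = -d := by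
      rw [hH, derivative_pow, derivative_add, derivative_one, derivative_C_mul]
      simp only [eval_mul, eval_pow, eval_add, eval_one, eval_C, hVo, hVd, mul_zero,
        add_zero, zero_add, one_pow, mul_one]
      rw [hv]
      field_simp
    have hHd : W ∣ H - 1 := by
      have h1 := sub_dvd_pow_sub_pow (1 + C v * V) 1 m
      rw [one_pow, add_sub_cancel_left, ← hH] at h1
      have h2 : W ∣ C v * V := by
        rw [hV]
        exact ⟨C v * (X - C o), by ring⟩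
      exact h2.trans h1
    refine ⟨E * G * H, zf_mul (zf_mul hE hGz) hHz, ?_⟩
    have e : A * (E * G * H) = A1 * H := by rw [hA1]; ring
    rw [e, hprod, mul_pow, ← hW]
    refine hcop.mul_dvd ?_ ?_
    · apply sq_dvd
      · rw [eval_sub, eval_mul, hA1o, hHo, eval_one]
        ring
      · rw [derivative_sub, derivative_mul, derivative_one, eval_sub, eval_add, eval_mul, eval_mul,
          hA1o, hHo, hHdo, ← hd, eval_zero]
        ring
    · have : A1 * H - 1 = (A1 - 1) * H + (H - 1) := by ring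
      rw [this]
      exact dvd_add (hA1d.mul_right H) hHd

/-- product of the factors `1 - conj o * X` -/
noncomputable def Pi1 (O : Finset ℂ) : ℂ[X] := ∏ o ∈ O, (1 - C (conj o) * X)

/-- sum of the products with one factor left out -/
noncomputable def Q1 (O : Finset ℂ) : ℂ[X] := ∑ o ∈ O, ∏ i ∈ O.erase o, (1 - C (conj i) * X)

theorem fac_ne {o z : ℂ} (ho : ‖o‖ = 1) (hz : z ≠ o) : 1 - conj o * z ≠ 0 := by
  intro h
  apply hz
  have h1 : conj o * o = 1 := by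
    rw [← Complex.normSq_eq_conj_mul_self, Complex.normSq_eq_norm_sq, ho]
    simp
  linear_combination (-o) * h + (-z) * h1

theorem re_inv (w : ℂ) (hw : ‖w‖ ≤ 1) (hw1 : 1 - w ≠ 0) : 1 / 2 ≤ ((1 - w)⁻¹).re := by
  rw [Complex.inv_re, le_div_iff₀ (Complex.normSq_pos.mpr hw1)]
  have h1 : Complex.normSq w ≤ 1 := by
    rw [Complex.normSq_eq_norm_sq]
    have := norm_nonneg w
    nlinarith
  rw [Complex.normSq_apply] at h1 ⊢
  simp only [Complex.sub_re, Complex.one_re, Complex.sub_im, Complex.one_im]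
  nlinarith

theorem Q1_eq (O : Finset ℂ) (hO : ∀ o ∈ O, ‖o‖ = 1) (z : ℂ) (hzO : z ∉ O) :
    (Q1 O).eval z = (Pi1 O).eval z * ∑ o ∈ O, (1 - conj o * z)⁻¹ := by
  unfold Q1 Pi1
  rw [eval_finsetSum, eval_prod, Finset.mul_sum]
  refine Finset.sum_congr rfl fun o ho => ?_
  rw [eval_prod, ← Finset.mul_prod_erase O _ ho]
  have h1 : (1 - C (conj o) * X : ℂ[X]).eval z = 1 - conj o * z := by simp
  rw [h1]
  have h2 : 1 - conj o * z ≠ 0 := fac_ne (hO o ho) (fun h => hzO (h ▸ ho))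
  field_simp

theorem Pi1_ne (O : Finset ℂ) (hO : ∀ o ∈ O, ‖o‖ = 1) (z : ℂ) (hzO : z ∉ O) :
    (Pi1 O).eval z ≠ 0 := by
  unfold Pi1
  rw [eval_prod]
  refine Finset.prod_ne_zero_iff.mpr fun o ho => ?_
  have h1 : (1 - C (conj o) * X : ℂ[X]).eval z = 1 - conj o * z := by simp
  rw [h1]
  exact fac_ne (hO o ho) (fun h => hzO (h ▸ ho))

theorem Pi1_zero (O : Finset ℂ) (hO : ∀ o ∈ O, ‖o‖ = 1) (z : ℂ) (hzO : z ∈ O) :
    (Pi1 O).eval z = 0 := by
  unfold Pi1
  rw [eval_prod]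
  refine Finset.prod_eq_zero hzO ?_
  have h1 : conj z * z = 1 := by
    rw [← Complex.normSq_eq_conj_mul_self, Complex.normSq_eq_norm_sq, hO z hzO]
    simp
  simp [h1]

theorem re_sum (O : Finset ℂ) (hne : O.Nonempty) (hO : ∀ o ∈ O, ‖o‖ = 1) (z : ℂ)
    (hz : ‖z‖ ≤ 1) (hzO : z ∉ O) : 1 / 2 ≤ (∑ o ∈ O, (1 - conj o * z)⁻¹).re := by
  rw [Complex.re_sum]
  have h1 : ∀ o ∈ O, 1 / 2 ≤ ((1 - conj o * z)⁻¹).re := by
    intro o ho
    refine re_inv _ ?_ (fac_ne (hO o ho) (fun h => hzO (h ▸ ho)))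
    rw [norm_mul, RCLike.norm_conj, hO o ho, one_mul]
    exact hz
  obtain ⟨o, ho⟩ := hne
  calc (1 / 2 : ℝ) ≤ ((1 - conj o * z)⁻¹).re := h1 o ho
    _ ≤ ∑ o ∈ O, ((1 - conj o * z)⁻¹).re :=
      Finset.single_le_sum (f := fun o => ((1 - conj o * z)⁻¹).re)
        (fun i hi => by linarith [h1 i hi]) ho

theorem key_ineq (O : Finset ℂ) (hne : O.Nonempty) (hO : ∀ o ∈ O, ‖o‖ = 1) (z : ℂ)
    (hz : ‖z‖ ≤ 1) : ‖(Q1 O).eval z‖ ^ 2 + 2 * ‖(Pi1 O).eval z‖ ^ 2 ≤
      ‖(Q1 O + Pi1 O).eval z‖ ^ 2 := by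
  by_cases hzO : z ∈ O
  · rw [eval_add, Pi1_zero O hO z hzO]
    simp
  · rw [eval_add, Q1_eq O hO z hzO]
    obtain ⟨s, hs⟩ : ∃ s, s = ∑ o ∈ O, (1 - conj o * z)⁻¹ := ⟨_, rfl⟩
    have h1 := re_sum O hne hO z hz hzO
    rw [← hs] at h1 ⊢
    have e : (Pi1 O).eval z * s + (Pi1 O).eval z = (Pi1 O).eval z * (s + 1) := by ring
    rw [e, norm_mul, norm_mul, mul_pow, mul_pow]
    have h2 : ‖s‖ ^ 2 + 2 ≤ ‖s + 1‖ ^ 2 := by
      rw [← Complex.normSq_eq_norm_sq, ← Complex.normSq_eq_norm_sq, Complex.normSq_apply,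
        Complex.normSq_apply]
      simp only [Complex.add_re, Complex.one_re, Complex.add_im, Complex.one_im]
      nlinarith
    have h3 : 0 ≤ ‖(Pi1 O).eval z‖ ^ 2 := by positivity
    nlinarith

theorem Q1_ne (O : Finset ℂ) (hne : O.Nonempty) (hO : ∀ o ∈ O, ‖o‖ = 1) : ZF (Q1 O) := by
  intro z hz
  by_cases hzO : z ∈ O
  · unfold Q1
    rw [eval_finsetSum, Finset.sum_eq_single z]
    · rw [eval_prod]
      refine Finset.prod_ne_zero_iff.mpr fun o ho => ?_
      rw [Finset.mem_erase] at ho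
      have h1 : (1 - C (conj o) * X : ℂ[X]).eval z = 1 - conj o * z := by simp
      rw [h1]
      exact fac_ne (hO o ho.2) (fun h => ho.1 h.symm)
    · intro o _ hoz
      rw [eval_prod]
      refine Finset.prod_eq_zero (Finset.mem_erase.mpr ⟨hoz.symm, hzO⟩) ?_
      have h1 : conj z * z = 1 := by
        rw [← Complex.normSq_eq_conj_mul_self, Complex.normSq_eq_norm_sq, hO z hzO]
        simp
      simp [h1]
    · intro h
      exact absurd hzO h
  · rw [Q1_eq O hO z hzO]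
    refine mul_ne_zero (Pi1_ne O hO z hzO) ?_
    intro h
    have h1 := re_sum O hne hO z hz hzO
    rw [h] at h1
    simp at h1
    linarith

theorem norm_Om (O : Finset ℂ) (hO : ∀ o ∈ O, ‖o‖ = 1) (z : ℂ) :
    ‖(∏ o ∈ O, (X - C o) : ℂ[X]).eval z‖ = ‖(Pi1 O).eval z‖ := by
  unfold Pi1
  rw [eval_prod, eval_prod, norm_prod, norm_prod]
  refine Finset.prod_congr rfl fun o ho => ?_
  have h1 : (1 - C (conj o) * X : ℂ[X]).eval z = 1 - conj o * z := by simp
  rw [h1]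
  have h2 : conj o * o = 1 := by
    rw [← Complex.normSq_eq_conj_mul_self, Complex.normSq_eq_norm_sq, hO o ho]
    simp
  have h3 : 1 - conj o * z = -(conj o * (z - o)) := by linear_combination (-1 : ℂ) * h2
  rw [h3, norm_neg, norm_mul, RCLike.norm_conj, hO o ho, one_mul]
  simp

theorem complex_sol (Z O : Finset ℂ) (hO : ∀ o ∈ O, ‖o‖ = 1) (hd : Disjoint Z O) :
    ∃ N D : ℂ[X], ZF D ∧ (∀ z : ℂ, ‖z‖ ≤ 1 → (N.eval z = 0 ↔ z ∈ Z)) ∧
      (∀ z : ℂ, ‖z‖ ≤ 1 → z ∉ O → ‖N.eval z‖ < ‖D.eval z‖) ∧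
      ∀ o ∈ O, N.eval o = D.eval o := by
  obtain ⟨A, hA⟩ : ∃ A : ℂ[X], A = ∏ z ∈ Z, (X - C z) := ⟨_, rfl⟩
  have hA0 : ∀ z : ℂ, A.eval z = 0 ↔ z ∈ Z := by
    intro z
    rw [hA, eval_prod, Finset.prod_eq_zero_iff]
    constructor
    · rintro ⟨x, hx, h⟩
      simp only [eval_sub, eval_X, eval_C] at h
      have : z = x := by linear_combination h
      exact this ▸ hx
    · intro h
      exact ⟨z, h, by simp⟩
  rcases O.eq_empty_or_nonempty with rfl | hne
  · obtain ⟨B, hB, hBA⟩ := bdd A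
    refine ⟨A, C ((B + 1 : ℝ) : ℂ), ?_, fun z _ => hA0 z, ?_, ?_⟩
    · intro z _
      rw [eval_C]
      exact_mod_cast (by positivity : B + 1 ≠ 0)
    · intro z hz _
      rw [eval_C, Complex.norm_real, Real.norm_eq_abs, abs_of_pos (by positivity)]
      linarith [hBA z hz]
    · intro o ho
      simp at ho
  · obtain ⟨E, hE, hdvd⟩ := unit_rep O (fun o ho => (hO o ho).le) A (by
      intro o ho h
      rw [hA0] at h
      exact Finset.disjoint_left.mp hd h ho)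
    obtain ⟨R, hR⟩ := hdvd
    obtain ⟨c, hc, hcR⟩ := bdd R
    obtain ⟨B, hB, hBQ⟩ := bdd (Q1 O)
    obtain ⟨K, hK⟩ := exists_nat_gt (c * B ^ 2)
    have hQ := Q1_ne O hne hO
    have hF : ∀ z : ℂ, (A * E).eval z = 1 + (∏ o ∈ O, (X - C o) : ℂ[X]).eval z ^ 2 * R.eval z := by
      intro z
      have h1 : A * E = 1 + (∏ o ∈ O, (X - C o)) ^ 2 * R := by rw [← hR]; ring
      rw [h1, eval_add, eval_one, eval_mul, eval_pow]
    refine ⟨A * E * (Q1 O) ^ (2 * K), (Q1 O + Pi1 O) ^ (2 * K), ?_, ?_, ?_, ?_⟩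
    · intro z hz
      rw [eval_pow]
      apply pow_ne_zero
      intro h
      have h1 := key_ineq O hne hO z hz
      rw [h] at h1
      have h2 : 0 < ‖(Q1 O).eval z‖ := norm_pos_iff.mpr (hQ z hz)
      have h3 : 0 ≤ ‖(Pi1 O).eval z‖ ^ 2 := by positivity
      simp at h1
      nlinarith
    · intro z hz
      rw [eval_mul, eval_mul, eval_pow, mul_eq_zero, mul_eq_zero]
      constructor
      · rintro ((h | h) | h)
        · exact (hA0 z).mp h
        · exact absurd h (hE z hz)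
        · exact absurd (eq_zero_of_pow_eq_zero h) (hQ z hz)
      · intro h
        exact Or.inl (Or.inl ((hA0 z).mpr h))
    · intro z hz hzO
      obtain ⟨a, ha⟩ : ∃ a, a = ‖(Q1 O).eval z‖ := ⟨_, rfl⟩
      obtain ⟨b, hb⟩ : ∃ b, b = ‖(Q1 O + Pi1 O).eval z‖ := ⟨_, rfl⟩
      obtain ⟨x, hx⟩ : ∃ x, x = ‖(Pi1 O).eval z‖ := ⟨_, rfl⟩
      have ha0 : 0 < a := by rw [ha]; exact norm_pos_iff.mpr (hQ z hz)
      have hx0 : 0 < x := by rw [hx]; exact norm_pos_iff.mpr (Pi1_ne O hO z hzO)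
      have haB : a ≤ B := by rw [ha]; exact hBQ z hz
      have hab : a ^ 2 + 2 * x ^ 2 ≤ b ^ 2 := by
        rw [ha, hb, hx]; exact key_ineq O hne hO z hz
      have hFn : ‖(A * E).eval z‖ ≤ 1 + c * x ^ 2 := by
        rw [hF]
        refine (norm_add_le _ _).trans ?_
        rw [norm_one, norm_mul, norm_pow, norm_Om O hO, ← hx]
        have := hcR z hz
        have h2 : 0 < x ^ 2 := by positivity
        nlinarith
      rw [eval_mul, norm_mul, eval_pow, eval_pow, norm_pow, norm_pow, ← ha, ← hb, pow_mul, pow_mul]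
      have h1 : (a ^ 2) ^ K * (1 + K * (2 * x ^ 2 / a ^ 2)) ≤ (b ^ 2) ^ K := by
        calc (a ^ 2) ^ K * (1 + K * (2 * x ^ 2 / a ^ 2))
            ≤ (a ^ 2) ^ K * (1 + 2 * x ^ 2 / a ^ 2) ^ K := by
              refine mul_le_mul_of_nonneg_left ?_ (by positivity)
              refine one_add_mul_le_pow ?_ K
              have : 0 ≤ 2 * x ^ 2 / a ^ 2 := by positivity
              linarith
          _ = (a ^ 2 + 2 * x ^ 2) ^ K := by
              rw [← mul_pow]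
              congr 1
              field_simp
          _ ≤ (b ^ 2) ^ K := pow_le_pow_left₀ (by positivity) hab K
      have h2 : 1 + c * x ^ 2 < 1 + K * (2 * x ^ 2 / a ^ 2) := by
        have h3 : c * a ^ 2 < 2 * K := by
          have : c * a ^ 2 ≤ c * B ^ 2 := by
            apply mul_le_mul_of_nonneg_left _ hc.le
            exact pow_le_pow_left₀ ha0.le haB 2
          have hB2 : 0 ≤ c * B ^ 2 := by positivity
          linarith
        have h4 : c * x ^ 2 < K * (2 * x ^ 2 / a ^ 2) := by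
          rw [mul_div_assoc', lt_div_iff₀ (by positivity)]
          have : 0 < x ^ 2 := by positivity
          nlinarith
        linarith
      have h5 : 0 < (a ^ 2) ^ K := by positivity
      calc ‖(A * E).eval z‖ * (a ^ 2) ^ K ≤ (1 + c * x ^ 2) * (a ^ 2) ^ K :=
            mul_le_mul_of_nonneg_right hFn h5.le
        _ < (1 + K * (2 * x ^ 2 / a ^ 2)) * (a ^ 2) ^ K := mul_lt_mul_of_pos_right h2 h5
        _ ≤ (b ^ 2) ^ K := by linarith
    · intro o ho
      have h1 : (∏ o ∈ O, (X - C o) : ℂ[X]).eval o = 0 := by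
        rw [eval_prod]
        exact Finset.prod_eq_zero ho (by simp)
      rw [eval_mul, hF, h1, eval_pow, eval_pow, eval_add, Pi1_zero O hO o ho]
      simp

theorem eval_conj (P : ℂ[X]) (z : ℂ) :
    (P.map (starRingEnd ℂ)).eval z = conj (P.eval (conj z)) := by
  rw [eval_map]
  conv_lhs => rw [← Complex.conj_conj z]
  exact eval₂_at_apply (starRingEnd ℂ) (conj z)

theorem real_poly (P : ℂ[X]) : ∃ R : ℝ[X], ∀ z : ℂ,
    aeval z R = P.eval z * conj (P.eval (conj z)) := by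
  have hmap : (P * P.map (starRingEnd ℂ)).map (starRingEnd ℂ) = P * P.map (starRingEnd ℂ) := by
    rw [Polynomial.map_mul, Polynomial.map_map]
    have : (starRingEnd ℂ).comp (starRingEnd ℂ) = RingHom.id ℂ := by
      ext z
      simp
    rw [this, Polynomial.map_id, mul_comm]
  have hlift : P * P.map (starRingEnd ℂ) ∈ Polynomial.lifts (algebraMap ℝ ℂ) := by
    rw [Polynomial.lifts_iff_coeff_lifts]
    intro n
    have h1 := congrArg (fun Q => Q.coeff n) hmap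
    beta_reduce at h1
    rw [Polynomial.coeff_map] at h1
    obtain ⟨r, hr⟩ := Complex.conj_eq_iff_real.mp h1
    exact ⟨r, hr.symm⟩
  obtain ⟨R, hR⟩ := (Polynomial.mem_lifts _).mp hlift
  refine ⟨R, fun z => ?_⟩
  rw [← eval_conj, ← eval_mul, ← hR, eval_map_algebraMap]


theorem real_sol (Z O : Finset ℂ) (hZc : ∀ z ∈ Z, conj z ∈ Z) (hOc : ∀ z ∈ O, conj z ∈ O)
    (hO : ∀ o ∈ O, ‖o‖ = 1) (hd : Disjoint Z O) :
    ∃ N D : ℝ[X], (∀ z : ℂ, ‖z‖ ≤ 1 → aeval z D ≠ 0) ∧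
      (∀ z : ℂ, ‖z‖ ≤ 1 → (aeval z N / aeval z D = 0 ↔ z ∈ Z)) ∧
      ∀ z : ℂ, ‖z‖ ≤ 1 → (aeval z N / aeval z D = 1 ↔ z ∈ O) := by
  obtain ⟨N0, D0, hD0, hN0, hlt, heq⟩ := complex_sol Z O hO hd
  obtain ⟨N, hN⟩ := real_poly N0
  obtain ⟨D, hD⟩ := real_poly D0
  have hn : ∀ z : ℂ, ‖z‖ ≤ 1 → ‖conj z‖ ≤ 1 := fun z hz => by rw [RCLike.norm_conj]; exact hz
  have hDne : ∀ z : ℂ, ‖z‖ ≤ 1 → aeval z D ≠ 0 := by
    intro z hz
    rw [hD]
    refine mul_ne_zero (hD0 z hz) ?_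
    rw [Ne, map_eq_zero]
    exact hD0 _ (hn z hz)
  have hZi : ∀ z, conj z ∈ Z → z ∈ Z := fun z h => by
    have := hZc _ h
    rwa [Complex.conj_conj] at this
  have hOi : ∀ z, conj z ∈ O → z ∈ O := fun z h => by
    have := hOc _ h
    rwa [Complex.conj_conj] at this
  refine ⟨N, D, hDne, ?_, ?_⟩
  · intro z hz
    rw [div_eq_zero_iff, or_iff_left (hDne z hz), hN, mul_eq_zero, map_eq_zero, hN0 z hz,
      hN0 _ (hn z hz)]
    exact ⟨fun h => h.elim id (hZi z), Or.inl⟩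
  · intro z hz
    rw [div_eq_one_iff_eq (hDne z hz), hN, hD]
    constructor
    · intro h
      by_contra hzO
      have h1 := hlt z hz hzO
      have h2 := hlt _ (hn z hz) (fun h => hzO (hOi z h))
      have h3 : ‖N0.eval z‖ * ‖N0.eval (conj z)‖ = ‖D0.eval z‖ * ‖D0.eval (conj z)‖ := by
        have := congrArg norm h
        rwa [norm_mul, norm_mul, RCLike.norm_conj, RCLike.norm_conj] at this
      have h4 := mul_lt_mul'' h1 h2 (norm_nonneg _) (norm_nonneg _)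
      linarith
    · intro h
      rw [heq z h, heq _ (hOc z h)]

end Pool.Agent.Helper504.Circle
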