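import Mathlib

set_option autoImplicit false

open Real

namespace Pool.Agent.Helper504.ConjPair

/-- strict form of the concavity of the sine -/
theorem sin_scale {l x : ℝ} (h0 : 0 < l) (h1 : l < 1) (hx : 0 < x) (hxp : x ≤ π) :
    l * sin x < sin (l * x) := by
  have h := strictConcaveOn_sin_Icc.2 (x := x) (y := 0) ⟨hx.le, hxp⟩ ⟨le_rfl, pi_pos.le⟩
    (by exact hx.ne') h0 (by linarith : 0 < 1 - l) (by ring)
  simpa using h

theorem sin_cmp {d s x : ℝ} (hd : 0 < d) (hds : d < s) (hx : 0 < x) (hdx : d * x < π)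
    (hsx : s * x < 2 * π) : d * sin (s * x) < s * sin (d * x) := by
  have hs : 0 < s := by linarith
  rcases le_or_gt (s * x) π with h | h
  · have h2 := sin_scale (l := d / s) (x := s * x) (by positivity)
      (by rw [div_lt_one hs]; exact hds) (by positivity) h
    have e : d / s * (s * x) = d * x := by field_simp
    rw [e] at h2
    have := mul_lt_mul_of_pos_left h2 hs
    have e2 : s * (d / s * sin (s * x)) = d * sin (s * x) := by field_simp
    linarith
  · have h2 : sin (s * x) < 0 := by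
      have : 0 < sin (s * x - π) := sin_pos_of_pos_of_lt_pi (by linarith) (by linarith)
      rw [sin_sub_pi] at this
      linarith
    have h3 : 0 < sin (d * x) := sin_pos_of_pos_of_lt_pi (by positivity) hdx
    nlinarith [mul_pos hs h3]

theorem ratio_mono {m M : ℝ} (hm : 0 < m) (hmM : m < M) :
    StrictMonoOn (fun x => sin (m * x) / sin (M * x)) (Set.Ioo 0 (π / M)) := by
  have hM : 0 < M := by linarith
  have hpos : ∀ x ∈ Set.Ioo 0 (π / M), 0 < sin (M * x) := by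
    intro x hx
    apply sin_pos_of_pos_of_lt_pi (mul_pos hM hx.1)
    have := (lt_div_iff₀ hM).mp hx.2
    linarith
  have hder : ∀ x ∈ Set.Ioo 0 (π / M), HasDerivAt (fun x => sin (m * x) / sin (M * x))
      ((cos (m * x) * m * sin (M * x) - sin (m * x) * (cos (M * x) * M)) / sin (M * x) ^ 2) x := by
    intro x hx
    have h1 : HasDerivAt (fun x => sin (m * x)) (cos (m * x) * m) x := by
      have := (hasDerivAt_id x).const_mul m
      simpa using this.sin
    have h2 : HasDerivAt (fun x => sin (M * x)) (cos (M * x) * M) x := by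
      have := (hasDerivAt_id x).const_mul M
      simpa using this.sin
    exact h1.div h2 (hpos x hx).ne'
  apply strictMonoOn_of_deriv_pos (convex_Ioo _ _)
  · intro x hx
    exact (hder x hx).continuousAt.continuousWithinAt
  · intro x hx
    rw [interior_Ioo] at hx
    rw [(hder x hx).deriv]
    apply div_pos _ (pow_pos (hpos x hx) 2)
    have hx1 : M * x < π := by
      have := (lt_div_iff₀ hM).mp hx.2
      linarith
    have h := sin_cmp (d := M - m) (s := M + m) (x := x) (by linarith) (by linarith) hx.1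
      (by nlinarith [hx.1]) (by nlinarith [hx.1])
    have e1 : sin ((M + m) * x) = sin (M * x) * cos (m * x) + cos (M * x) * sin (m * x) := by
      rw [add_mul, sin_add]
    have e2 : sin ((M - m) * x) = sin (M * x) * cos (m * x) - cos (M * x) * sin (m * x) := by
      rw [sub_mul, sin_sub]
    rw [e1, e2] at h
    nlinarith [h]

/-- the modulus function -/
noncomputable def Mf (n : ℕ) (x : ℝ) : ℝ :=
  sin x * sin (n * x) ^ n / sin ((n + 1) * x) ^ (n + 1)

theorem Mf_eq (n : ℕ) (x : ℝ) : Mf n x = (sin (1 * x) / sin (((n : ℝ) + 1) * x)) *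
    (sin (n * x) / sin (((n : ℝ) + 1) * x)) ^ n := by
  rw [Mf, one_mul, div_pow, div_mul_div_comm, pow_succ']

theorem Mf_mono (n : ℕ) (hn : 0 < n) : StrictMonoOn (Mf n) (Set.Ioo 0 (π / ((n : ℝ) + 1))) := by
  have hn' : (0 : ℝ) < n := by exact_mod_cast hn
  intro x hx y hy hxy
  rw [Mf_eq, Mf_eq]
  have h1 := ratio_mono (m := 1) (M := (n : ℝ) + 1) one_pos (by linarith) hx hy hxy
  have h2 := ratio_mono (m := (n : ℝ)) (M := (n : ℝ) + 1) hn' (by linarith) hx hy hxy
  simp only at h1 h2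
  have hM : (0 : ℝ) < (n : ℝ) + 1 := by linarith
  have pos : ∀ t ∈ Set.Ioo 0 (π / ((n : ℝ) + 1)), 0 < sin (((n : ℝ) + 1) * t) ∧
      0 < sin ((n : ℝ) * t) ∧ 0 < sin (1 * t) := by
    intro t ht
    have h := (lt_div_iff₀ hM).mp ht.2
    have ht0 := ht.1
    have h' : 0 < (n : ℝ) * t := by positivity
    refine ⟨sin_pos_of_pos_of_lt_pi (by positivity) (by linarith),
      sin_pos_of_pos_of_lt_pi (by positivity) (by nlinarith),
      sin_pos_of_pos_of_lt_pi (by linarith) (by nlinarith)⟩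
  obtain ⟨a1, a2, a3⟩ := pos x hx
  obtain ⟨b1, b2, b3⟩ := pos y hy
  have h3 : (sin (n * x) / sin (((n : ℝ) + 1) * x)) ^ n <
      (sin (n * y) / sin (((n : ℝ) + 1) * y)) ^ n :=
    pow_lt_pow_left₀ h2 (by positivity) hn.ne'
  exact mul_lt_mul'' h1 h3 (by positivity) (by positivity)

theorem Mf_gt (n : ℕ) (hn : 0 < n) (x : ℝ) (hx : 0 < x) (hxp : ((n : ℝ) + 1) * x < π) :
    (1 / ((n : ℝ) + 1)) * ((n : ℝ) / ((n : ℝ) + 1)) ^ n < Mf n x := by
  have hn' : (0 : ℝ) < n := by exact_mod_cast hn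
  have hM : (0 : ℝ) < (n : ℝ) + 1 := by linarith
  have hs : 0 < sin (((n : ℝ) + 1) * x) := sin_pos_of_pos_of_lt_pi (by positivity) hxp
  rw [Mf_eq]
  have h1 := sin_cmp (d := 1) (s := (n : ℝ) + 1) (x := x) one_pos (by linarith) hx
    (by nlinarith) (by linarith [pi_pos])
  have h2 := sin_cmp (d := (n : ℝ)) (s := (n : ℝ) + 1) (x := x) hn' (by linarith) hx
    (by nlinarith) (by linarith [pi_pos])
  have h3 : 1 / ((n : ℝ) + 1) < sin (1 * x) / sin (((n : ℝ) + 1) * x) := by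
    rw [div_lt_div_iff₀ hM hs]
    linarith
  have h4 : (n : ℝ) / ((n : ℝ) + 1) < sin (n * x) / sin (((n : ℝ) + 1) * x) := by
    rw [div_lt_div_iff₀ hM hs]
    linarith
  exact mul_lt_mul'' h3 (pow_lt_pow_left₀ h4 (by positivity) hn.ne') (by positivity)
    (by positivity)

theorem real_bound (n : ℕ) (hn : 0 < n) (y : ℝ) (hy : 0 < y) (hy1 : y < 1) :
    y * (1 - y) ^ n ≤ (1 / ((n : ℝ) + 1)) * ((n : ℝ) / ((n : ℝ) + 1)) ^ n := by
  have hn' : (0 : ℝ) < n := by exact_mod_cast hn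
  have hM : (0 : ℝ) < (n : ℝ) + 1 := by linarith
  obtain ⟨s, hs⟩ : ∃ s : ℝ, s = ((n : ℝ) + 1) * y := ⟨_, rfl⟩
  have hs0 : 0 < s := by rw [hs]; positivity
  have hy' : y = (1 / ((n : ℝ) + 1)) * s := by rw [hs]; field_simp
  have h1 : 1 - y = ((n : ℝ) / ((n : ℝ) + 1)) * (1 + (1 - s) / n) := by
    rw [hs]; field_simp; ring
  have h2 : 0 ≤ 1 + (1 - s) / n := by
    have : 0 < ((n : ℝ) / ((n : ℝ) + 1)) * (1 + (1 - s) / n) := by rw [← h1]; linarith
    exact ((mul_pos_iff_of_pos_left (by positivity)).mp this).le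
  have h3 : (1 + (1 - s) / n) ^ n ≤ exp (1 - s) := by
    calc (1 + (1 - s) / n) ^ n ≤ (exp ((1 - s) / n)) ^ n := by
          apply pow_le_pow_left₀ h2
          have := add_one_le_exp ((1 - s) / n)
          linarith
      _ = exp (1 - s) := by
          rw [← exp_nat_mul]
          congr 1
          field_simp
  have h4 : s * exp (1 - s) ≤ 1 := by
    have h5 := add_one_le_exp (s - 1)
    have h6 : exp (s - 1) * exp (1 - s) = 1 := by rw [← exp_add]; simp
    have h7 := exp_pos (1 - s)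
    nlinarith
  rw [h1, mul_pow]
  nth_rewrite 1 [hy']
  have h8 : 0 ≤ (1 / ((n : ℝ) + 1)) * ((n : ℝ) / ((n : ℝ) + 1)) ^ n := by positivity
  calc 1 / ((n : ℝ) + 1) * s * (((n : ℝ) / ((n : ℝ) + 1)) ^ n * (1 + (1 - s) / n) ^ n)
      = ((1 / ((n : ℝ) + 1)) * ((n : ℝ) / ((n : ℝ) + 1)) ^ n) * (s * (1 + (1 - s) / n) ^ n) := by
        ring
    _ ≤ ((1 / ((n : ℝ) + 1)) * ((n : ℝ) / ((n : ℝ) + 1)) ^ n) * 1 := by
        apply mul_le_mul_of_nonneg_left _ h8
        calc s * (1 + (1 - s) / n) ^ n ≤ s * exp (1 - s) := by gcongr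
          _ ≤ 1 := h4
    _ = _ := mul_one _

theorem im_bound (a : ℝ) (ha0 : 0 < a) (ha1 : a < 1) (ζ : ℂ) (h : ‖ζ‖ ≤ a) :
    |(1 - ζ).im| ≤ a * ‖1 - ζ‖ := by
  rw [← Real.sqrt_sq_eq_abs]
  apply Real.sqrt_le_iff.mpr
  refine ⟨by positivity, ?_⟩
  have h1 : ζ.re ^ 2 + ζ.im ^ 2 ≤ a ^ 2 := by
    have := Complex.sq_norm ζ
    rw [Complex.normSq_apply] at this
    have h2 : ‖ζ‖ ^ 2 ≤ a ^ 2 := by gcongr
    nlinarith
  rw [mul_pow, Complex.sq_norm, Complex.normSq_apply]
  simp only [Complex.sub_re, Complex.sub_im, Complex.one_re, Complex.one_im]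
  have h3 : 0 ≤ 1 - a ^ 2 := by nlinarith
  nlinarith [sq_nonneg (ζ.re - a ^ 2), mul_le_mul_of_nonneg_right h1 h3]

/-- the geometric part: argument and modulus of the two factors -/
theorem geom (a : ℝ) (ha0 : 0 < a) (ha1 : a < 1) (n : ℕ) (hn : 4 ≤ n)
    (han : a < sin (2 * π / n)) (z : ℂ) (hz : ‖z‖ ≤ 1) (him : 0 < z.im) (t : ℝ) (ht : 0 < t)
    (hq : z * (1 - a * z) ^ n = (t : ℂ)) :
    ∃ ψ : ℝ, 0 < ψ ∧ ((n : ℝ) + 1) * ψ < π ∧
      z = ((sin ψ / (a * sin (((n : ℝ) + 1) * ψ)) : ℝ) : ℂ) * Complex.exp ((n * ψ : ℝ) * Complex.I) ∧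
      a * t = sin ψ * sin (n * ψ) ^ n / sin (((n : ℝ) + 1) * ψ) ^ (n + 1) := by
  have hn' : (0 : ℝ) < n := by
    have : 0 < n := by omega
    exact_mod_cast this
  obtain ⟨w, hw⟩ : ∃ w : ℂ, w = 1 - a * z := ⟨_, rfl⟩
  have haz : ‖(a : ℂ) * z‖ ≤ a := by
    rw [norm_mul, Complex.norm_real, Real.norm_eq_abs, abs_of_pos ha0]
    nlinarith [norm_nonneg z]
  have hwim : w.im = -(a * z.im) := by rw [hw]; simp
  have hwre : 0 < w.re := by
    rw [hw]
    have := Complex.abs_re_le_norm ((a : ℂ) * z)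
    have h2 := abs_le.mp (this.trans haz)
    simp only [Complex.sub_re, Complex.one_re]
    linarith [h2.2]
  have hwim' : w.im < 0 := by rw [hwim]; nlinarith
  have hw0 : w ≠ 0 := by
    intro h
    rw [h] at hwre
    simp at hwre
  have hz0 : z ≠ 0 := by
    intro h
    rw [h] at him
    simp at him
  obtain ⟨ψ, hψ⟩ : ∃ ψ : ℝ, ψ = -w.arg := ⟨_, rfl⟩
  obtain ⟨φ, hφ⟩ : ∃ φ : ℝ, φ = z.arg := ⟨_, rfl⟩
  have hψ0 : 0 < ψ := by
    rw [hψ]
    have := Complex.arg_neg_iff.mpr hwim'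
    linarith
  have hψ1 : ψ < π / 2 := by
    have := (Complex.abs_arg_lt_pi_div_two_iff.mpr (Or.inl hwre))
    have h2 := abs_lt.mp this
    rw [hψ]; linarith [h2.1]
  have hφ0 : 0 < φ := by
    rw [hφ]
    have h1 := Complex.arg_nonneg_iff.mpr him.le
    rcases h1.lt_or_eq with h | h
    · exact h
    · exfalso
      have := Complex.arg_eq_zero_iff.mp h.symm
      linarith [this.2]
  have hφ1 : φ < π := by
    rw [hφ]
    exact Complex.arg_lt_pi_iff.mpr (Or.inr him.ne')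
  have hR : 0 < ‖z‖ := norm_pos_iff.mpr hz0
  have hW : 0 < ‖w‖ := norm_pos_iff.mpr hw0
  have hzc : ‖z‖ * cos φ = z.re := by rw [hφ]; exact Complex.norm_mul_cos_arg z
  have hzs : ‖z‖ * sin φ = z.im := by rw [hφ]; exact Complex.norm_mul_sin_arg z
  have hwc : ‖w‖ * cos ψ = w.re := by rw [hψ, cos_neg]; exact Complex.norm_mul_cos_arg w
  have hws : ‖w‖ * sin ψ = -w.im := by
    rw [hψ, sin_neg]; have := Complex.norm_mul_sin_arg w; linarith
  have hsψ : sin ψ ≤ a := by
    have h1 := im_bound a ha0 ha1 (a * z) haz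
    rw [← hw, abs_of_neg hwim', ← hws] at h1
    nlinarith
  have hsψ' : ψ < 2 * π / n := by
    by_contra hcon
    push Not at hcon
    have h2 : 2 * π / n ≤ π / 2 := by
      rw [div_le_div_iff₀ hn' two_pos]
      have : (4 : ℝ) ≤ n := by exact_mod_cast hn
      nlinarith [pi_pos]
    have h3 : sin (2 * π / n) ≤ sin ψ := by
      apply sin_le_sin_of_le_of_le_pi_div_two _ hψ1.le hcon
      have : 0 < 2 * π / n := by positivity
      linarith [pi_pos]
    linarith
  have hnψ : n * ψ < 2 * π := by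
    have := (lt_div_iff₀ hn').mp hsψ'
    linarith
  -- polar forms
  have hzp : z = (‖z‖ : ℂ) * Complex.exp (φ * Complex.I) := by
    rw [hφ]; exact (Complex.norm_mul_exp_arg_mul_I z).symm
  have hwp : w = (‖w‖ : ℂ) * Complex.exp (-(ψ * Complex.I)) := by
    have h1 := (Complex.norm_mul_exp_arg_mul_I w).symm
    have h2 : -(ψ * Complex.I) = w.arg * Complex.I := by rw [hψ]; push_cast; ring
    rw [h2]; exact h1
  have hprod : ((‖z‖ * ‖w‖ ^ n : ℝ) : ℂ) * Complex.exp ((φ - n * ψ : ℝ) * Complex.I) = (t : ℂ) := by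
    rw [← hq, ← hw]
    conv_rhs => rw [hzp, hwp]
    rw [mul_pow, ← Complex.exp_nat_mul]
    push_cast
    have : ((φ : ℂ) - n * ψ) * Complex.I = φ * Complex.I + n * (-(ψ * Complex.I)) := by ring
    rw [this, Complex.exp_add]
    ring
  have hPpos : 0 < ‖z‖ * ‖w‖ ^ n := by positivity
  have hnorm : ‖z‖ * ‖w‖ ^ n = t := by
    have := congrArg norm hprod
    rw [norm_mul, Complex.norm_exp_ofReal_mul_I, mul_one, Complex.norm_real, Complex.norm_real,
      Real.norm_eq_abs, Real.norm_eq_abs, abs_of_pos hPpos, abs_of_pos ht] at this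
    exact this
  have hexp : Complex.exp ((φ - n * ψ : ℝ) * Complex.I) = 1 := by
    rw [hnorm] at hprod
    have ht' : (t : ℂ) ≠ 0 := by exact_mod_cast ht.ne'
    exact mul_left_cancel₀ ht' (by rw [hprod, mul_one])
  have hφψ : φ = n * ψ := by
    obtain ⟨k, hk⟩ := Complex.exp_eq_one_iff.mp hexp
    have hk' : φ - n * ψ = k * (2 * π) := by
      have h1 := congrArg Complex.im hk
      simpa using h1
    have hk0 : k = 0 := by
      have h1 : (-1 : ℝ) < k := by
        by_contra hcon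
        push Not at hcon
        nlinarith [pi_pos]
      have h2 : (k : ℝ) < 1 := by
        by_contra hcon
        push Not at hcon
        nlinarith [pi_pos, mul_pos hn' hψ0]
      have h3 : -1 < k := by exact_mod_cast h1
      have h4 : k < 1 := by exact_mod_cast h2
      omega
    rw [hk0] at hk'
    simp at hk'
    linarith
  have hre1 : a * (‖z‖ * cos φ) + ‖w‖ * cos ψ = 1 := by
    rw [hzc, hwc, hw]; simp
  have him1 : a * (‖z‖ * sin φ) = ‖w‖ * sin ψ := by
    rw [hzs, hws, hwim]; ring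
  have hsinψ : 0 < sin ψ := sin_pos_of_pos_of_lt_pi hψ0 (by linarith)
  have hsinφ : 0 < sin φ := sin_pos_of_pos_of_lt_pi hφ0 hφ1
  have e1 : a * ‖z‖ * sin (φ + ψ) = sin ψ := by
    rw [sin_add]
    calc a * ‖z‖ * (sin φ * cos ψ + cos φ * sin ψ)
        = (a * (‖z‖ * sin φ)) * cos ψ + a * (‖z‖ * cos φ) * sin ψ := by ring
      _ = (a * (‖z‖ * cos φ) + ‖w‖ * cos ψ) * sin ψ := by rw [him1]; ring
      _ = sin ψ := by rw [hre1, one_mul]
  have e2 : ‖w‖ * sin (φ + ψ) = sin φ := by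
    rw [sin_add]
    calc ‖w‖ * (sin φ * cos ψ + cos φ * sin ψ)
        = (‖w‖ * sin ψ) * cos φ + ‖w‖ * cos ψ * sin φ := by ring
      _ = (a * (‖z‖ * cos φ) + ‖w‖ * cos ψ) * sin φ := by rw [← him1]; ring
      _ = sin φ := by rw [hre1, one_mul]
  have hsum : 0 < sin (φ + ψ) := by
    by_contra hcon
    push Not at hcon
    have : a * ‖z‖ * sin (φ + ψ) ≤ 0 := mul_nonpos_of_nonneg_of_nonpos (by positivity) hcon
    linarith
  have hsumlt : φ + ψ < π := by
    by_contra hcon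
    push Not at hcon
    have : 0 ≤ sin (φ + ψ - π) := sin_nonneg_of_nonneg_of_le_pi (by linarith) (by linarith)
    rw [sin_sub_pi] at this
    linarith
  have hs1 : φ + ψ = ((n : ℝ) + 1) * ψ := by rw [hφψ]; ring
  have hZ : ‖z‖ = sin ψ / (a * sin (φ + ψ)) := by
    rw [eq_div_iff (by positivity)]
    linarith
  have hWn : ‖w‖ = sin φ / sin (φ + ψ) := by
    rw [eq_div_iff (by positivity)]
    linarith
  refine ⟨ψ, hψ0, by rw [← hs1]; exact hsumlt, ?_, ?_⟩
  · rw [← hs1, ← hZ, ← hφψ]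
    exact hzp
  · rw [← hs1, ← hφψ, ← hnorm, hZ, hWn, div_pow, pow_succ]
    have h1 := hsum.ne'
    have h2 := ha0.ne'
    field_simp


open Filter Topology in
/-- existence of the parameters -/
theorem exists_n (r θ : ℝ) (hr : 0 < r) (hθ0 : 0 < θ) (hθ1 : θ < π)
    (h : θ < 2 * π * (r * sin θ)) :
    ∃ n : ℕ, 4 ≤ n ∧ ((n : ℝ) + 1) * (θ / n) < π ∧
      sin (θ / n) / (r * sin (((n : ℝ) + 1) * (θ / n))) < 1 ∧
      sin (θ / n) / (r * sin (((n : ℝ) + 1) * (θ / n))) < sin (2 * π / n) := by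
  have hs : 0 < sin θ := sin_pos_of_pos_of_lt_pi hθ0 hθ1
  have hinv : Tendsto (fun n : ℕ => ((n : ℝ))⁻¹) atTop (𝓝 0) := tendsto_inv_atTop_nhds_zero_nat
  -- `(n+1) θ / n → θ`
  have hA : Tendsto (fun n : ℕ => ((n : ℝ) + 1) * (θ / n)) atTop (𝓝 θ) := by
    have h1 : Tendsto (fun n : ℕ => θ + θ * ((n : ℝ))⁻¹) atTop (𝓝 (θ + θ * 0)) :=
      tendsto_const_nhds.add (tendsto_const_nhds.mul hinv)
    rw [mul_zero, add_zero] at h1
    refine h1.congr' ?_
    filter_upwards [eventually_gt_atTop 0] with n hn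
    have : (n : ℝ) ≠ 0 := by exact_mod_cast hn.ne'
    field_simp
  have hsinA : Tendsto (fun n : ℕ => r * sin (((n : ℝ) + 1) * (θ / n))) atTop (𝓝 (r * sin θ)) :=
    tendsto_const_nhds.mul ((continuous_sin.tendsto θ).comp hA)
  -- `n sin (x / n) → x`
  have hB : ∀ x : ℝ, Tendsto (fun n : ℕ => (n : ℝ) * sin (x / n)) atTop (𝓝 x) := by
    intro x
    have hd : HasDerivAt (fun t : ℝ => sin (x * t)) x 0 := by
      have h1 := ((hasDerivAt_id (0 : ℝ)).const_mul x).sin
      simpa using h1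
    have h2 := hd.tendsto_slope_zero_right
    have h3 : Tendsto (fun n : ℕ => ((n : ℝ))⁻¹) atTop (𝓝[>] 0) := by
      refine tendsto_nhdsWithin_iff.mpr ⟨hinv, ?_⟩
      filter_upwards [eventually_gt_atTop 0] with n hn
      have : (0 : ℝ) < n := by exact_mod_cast hn
      simpa using this
    have h4 := h2.comp h3
    refine h4.congr ?_
    intro n
    simp [div_eq_mul_inv]
  have hC : Tendsto (fun n : ℕ => (n : ℝ) * sin (θ / n) / (r * sin (((n : ℝ) + 1) * (θ / n))))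
      atTop (𝓝 (θ / (r * sin θ))) :=
    (hB θ).div hsinA (by positivity)
  have hlt : θ / (r * sin θ) < 2 * π := by
    rw [div_lt_iff₀ (by positivity)]
    exact h
  obtain ⟨m, hm1, hm2⟩ := exists_between hlt
  have e1 := hC.eventually (gt_mem_nhds hm1)
  have e2 := (hB (2 * π)).eventually (lt_mem_nhds hm2)
  have e3 := hA.eventually (gt_mem_nhds hθ1)
  have hmax : ∀ᶠ n : ℕ in atTop, (m : ℝ) < n := by
    obtain ⟨N, hN⟩ := exists_nat_gt m
    filter_upwards [eventually_ge_atTop N] with n hn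
    have : (N : ℝ) ≤ n := by exact_mod_cast hn
    linarith
  obtain ⟨n, h1, h2, h3, h4, h5⟩ := (e1.and (e2.and (e3.and (hmax.and
    (eventually_ge_atTop 4))))).exists
  have hn : (0 : ℝ) < n := by
    have : 0 < n := by omega
    exact_mod_cast this
  have key : sin (θ / n) / (r * sin (((n : ℝ) + 1) * (θ / n))) < m / n := by
    rw [lt_div_iff₀ hn]
    calc _ = (n : ℝ) * sin (θ / n) / (r * sin (((n : ℝ) + 1) * (θ / n))) := by ring
      _ < m := h1
  refine ⟨n, h5, h3, ?_, ?_⟩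
  · apply key.trans
    rw [div_lt_one hn]
    exact h4
  · apply key.trans
    rw [div_lt_iff₀ hn]
    linarith


theorem core (o : ℂ) (ho : ‖o‖ ≤ 1) (him : 0 < o.im) (h : o.arg < 2 * π * o.im) :
    ∃ (n : ℕ) (a t : ℝ), 4 ≤ n ∧ 0 < a ∧ a < 1 ∧ 0 < t ∧
      ∀ z : ℂ, ‖z‖ ≤ 1 → (z * (1 - a * z) ^ n = (t : ℂ) ↔ z = o ∨ z = (starRingEnd ℂ) o) := by
  have ho0 : o ≠ 0 := by
    intro h
    rw [h] at him
    simp at him
  have hr : 0 < ‖o‖ := norm_pos_iff.mpr ho0
  obtain ⟨θ, hθ⟩ : ∃ θ : ℝ, θ = o.arg := ⟨_, rfl⟩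
  have hθ0 : 0 < θ := by
    rw [hθ]
    have h1 := Complex.arg_nonneg_iff.mpr him.le
    rcases h1.lt_or_eq with h | h
    · exact h
    · exfalso
      have := Complex.arg_eq_zero_iff.mp h.symm
      linarith [this.2]
  have hθ1 : θ < π := by
    rw [hθ]
    exact Complex.arg_lt_pi_iff.mpr (Or.inr him.ne')
  have hrc : ‖o‖ * cos θ = o.re := by rw [hθ]; exact Complex.norm_mul_cos_arg o
  have hrs : ‖o‖ * sin θ = o.im := by rw [hθ]; exact Complex.norm_mul_sin_arg o
  obtain ⟨n, hn, h1, h2, h3⟩ := exists_n ‖o‖ θ hr hθ0 hθ1 (by rw [hrs, hθ]; exact h)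
  have hn0 : 0 < n := by omega
  have hn' : (0 : ℝ) < n := by exact_mod_cast hn0
  obtain ⟨ψ, hψ⟩ : ∃ ψ : ℝ, ψ = θ / n := ⟨_, rfl⟩
  rw [← hψ] at h1 h2 h3
  have hψ0 : 0 < ψ := by rw [hψ]; positivity
  have hnψ : n * ψ = θ := by rw [hψ]; field_simp
  have hσ : 0 < sin (((n : ℝ) + 1) * ψ) := sin_pos_of_pos_of_lt_pi (by positivity) h1
  have hσ' : sin (((n : ℝ) + 1) * ψ) = sin θ * cos ψ + cos θ * sin ψ := by
    rw [← sin_add]
    congr 1
    linarith
  have hsψ : 0 < sin ψ := sin_pos_of_pos_of_lt_pi hψ0 (by nlinarith)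
  have hsθ : 0 < sin θ := sin_pos_of_pos_of_lt_pi hθ0 hθ1
  obtain ⟨a, ha⟩ : ∃ a : ℝ, a = sin ψ / (‖o‖ * sin (((n : ℝ) + 1) * ψ)) := ⟨_, rfl⟩
  rw [← ha] at h2 h3
  have ha0 : 0 < a := by rw [ha]; positivity
  obtain ⟨t, ht⟩ : ∃ t : ℝ, t = ‖o‖ * (sin θ / sin (((n : ℝ) + 1) * ψ)) ^ n := ⟨_, rfl⟩
  have ht0 : 0 < t := by rw [ht]; positivity
  have har : a * ‖o‖ * sin (((n : ℝ) + 1) * ψ) = sin ψ := by
    rw [ha]
    field_simp
  have hw : 1 - (a : ℂ) * o = ((sin θ / sin (((n : ℝ) + 1) * ψ) : ℝ) : ℂ) *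
      Complex.exp (-(ψ * Complex.I)) := by
    have e : -((ψ : ℂ) * Complex.I) = ((-ψ : ℝ) : ℂ) * Complex.I := by push_cast; ring
    rw [e]
    apply Complex.ext
    · rw [Complex.re_ofReal_mul, Complex.exp_ofReal_mul_I_re, cos_neg, Complex.sub_re,
        Complex.re_ofReal_mul, Complex.one_re, ← hrc]
      rw [div_mul_eq_mul_div, eq_div_iff hσ.ne']
      linear_combination hσ' - cos θ * har
    · rw [Complex.im_ofReal_mul, Complex.exp_ofReal_mul_I_im, sin_neg, Complex.sub_im,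
        Complex.im_ofReal_mul, Complex.one_im, ← hrs]
      rw [div_mul_eq_mul_div, eq_div_iff hσ.ne']
      linear_combination -(sin θ * har)
  have hto : o * (1 - a * o) ^ n = (t : ℂ) := by
    have hop : o = (‖o‖ : ℂ) * Complex.exp (θ * Complex.I) := by
      rw [hθ]; exact (Complex.norm_mul_exp_arg_mul_I o).symm
    rw [hw, mul_pow, ← Complex.exp_nat_mul]
    nth_rewrite 1 [hop]
    have e : (n : ℂ) * -(ψ * Complex.I) = -(θ * Complex.I) := by
      rw [← hnψ]; push_cast; ring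
    rw [e, ht]
    push_cast
    have e2 : Complex.exp (θ * Complex.I) * Complex.exp (-(θ * Complex.I)) = 1 := by
      rw [← Complex.exp_add]; simp
    linear_combination ((‖o‖ : ℂ) * (Complex.sin θ / Complex.sin (((n : ℂ) + 1) * ψ)) ^ n) * e2
  obtain ⟨ψ1, p1, p2, p3, p4⟩ := geom a ha0 h2 n hn h3 o ho him t ht0 hto
  have up : ∀ z : ℂ, ‖z‖ ≤ 1 → 0 < z.im → z * (1 - a * z) ^ n = (t : ℂ) → z = o := by
    intro z hz hzi hq
    obtain ⟨ψ2, s1, s2, s3, s4⟩ := geom a ha0 h2 n hn h3 z hz hzi t ht0 hq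
    have hM : (0 : ℝ) < (n : ℝ) + 1 := by linarith
    have m1 : ψ1 ∈ Set.Ioo 0 (π / ((n : ℝ) + 1)) :=
      ⟨p1, by rw [lt_div_iff₀ hM]; linarith⟩
    have m2 : ψ2 ∈ Set.Ioo 0 (π / ((n : ℝ) + 1)) :=
      ⟨s1, by rw [lt_div_iff₀ hM]; linarith⟩
    have e : Mf n ψ1 = Mf n ψ2 := by
      rw [Mf, Mf, ← p4, ← s4]
    have e2 := (Mf_mono n hn0).injOn m1 m2 e
    rw [s3, p3, e2]
  have conjq : ∀ z : ℂ, z * (1 - a * z) ^ n = (t : ℂ) →
      (starRingEnd ℂ) z * (1 - a * (starRingEnd ℂ) z) ^ n = (t : ℂ) := by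
    intro z hz
    have := congrArg (starRingEnd ℂ) hz
    simpa using this
  refine ⟨n, a, t, hn, ha0, h2, ht0, ?_⟩
  intro z hz
  constructor
  · intro hq
    rcases lt_trichotomy z.im 0 with hi | hi | hi
    · right
      have := up ((starRingEnd ℂ) z) (by rwa [RCLike.norm_conj]) (by simpa using hi) (conjq z hq)
      rw [← this]
      simp
    · exfalso
      obtain ⟨x, rfl⟩ : ∃ x : ℝ, z = x := ⟨z.re, by apply Complex.ext <;> simp [hi]⟩
      have hx : |x| ≤ 1 := by simpa using hz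
      have hx' := abs_le.mp hx
      have hq' : x * (1 - a * x) ^ n = t := by exact_mod_cast hq
      have h1ax : 0 < 1 - a * x := by nlinarith [hx'.1, hx'.2]
      have hx0 : 0 < x := by
        by_contra hcon
        push Not at hcon
        have : x * (1 - a * x) ^ n ≤ 0 := mul_nonpos_of_nonpos_of_nonneg hcon (by positivity)
        linarith
      have hy := real_bound n hn0 (a * x) (by positivity) (by linarith)
      have hg := Mf_gt n hn0 ψ1 p1 p2
      rw [Mf, ← p4, ← hq'] at hg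
      nlinarith
    · left
      exact up z hz hi hq
  · rintro (rfl | rfl)
    · exact hto
    · exact conjq o hto

theorem core2 (o : ℂ) (ho : ‖o‖ ≤ 1) (him : 0 < o.im)
    (h : min o.arg (π - o.arg) < 2 * π * o.im) :
    ∃ (n : ℕ) (a t : ℝ), 4 ≤ n ∧ a ≠ 0 ∧ |a| < 1 ∧ t ≠ 0 ∧
      ∀ z : ℂ, ‖z‖ ≤ 1 → (z * (1 - a * z) ^ n = (t : ℂ) ↔ z = o ∨ z = (starRingEnd ℂ) o) := by
  rcases min_lt_iff.mp h with h | h
  · obtain ⟨n, a, t, h1, h2, h3, h4, h5⟩ := core o ho him h
    exact ⟨n, a, t, h1, h2.ne', by rwa [abs_of_pos h2], h4.ne', h5⟩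
  · have harg : (-(starRingEnd ℂ) o).arg = π - o.arg := by
      have h1 : ((starRingEnd ℂ) o).arg = -o.arg := by
        rw [Complex.arg_conj]
        have : o.arg ≠ π := by
          intro h2
          have := Complex.arg_eq_pi_iff.mp h2
          linarith [this.2]
        simp [this]
      have h2 : ((starRingEnd ℂ) o).im < 0 := by simpa using him
      rw [Complex.arg_neg_eq_arg_add_pi_of_im_neg h2, h1]
      ring
    obtain ⟨n, a, t, h1, h2, h3, h4, h5⟩ := core (-(starRingEnd ℂ) o)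
      (by rwa [norm_neg, RCLike.norm_conj]) (by simpa using him) (by rw [harg]; simpa using h)
    refine ⟨n, -a, -t, h1, by simpa using h2.ne', by rwa [abs_neg, abs_of_pos h2],
      by simpa using h4.ne', ?_⟩
    intro z hz
    have h6 := h5 (-z) (by rwa [norm_neg])
    have e1 : z * (1 - ((-a : ℝ) : ℂ) * z) ^ n = ((-t : ℝ) : ℂ) ↔
        -z * (1 - a * -z) ^ n = (t : ℂ) := by
      push_cast
      constructor
      · intro h
        linear_combination -h
      · intro h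
        linear_combination -h
    rw [e1, h6, neg_inj]
    constructor
    · rintro (h | h)
      · right; exact h
      · left
        rw [map_neg, starRingEnd_self_apply] at h
        exact neg_injective h
    · rintro (h | h)
      · right; rw [map_neg, starRingEnd_self_apply, h]
      · left; exact h

end Pool.Agent.Helper504.ConjPair
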